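import Pool.Agent.Lib.MP_9dc83d_nt.AlmostP

set_option autoImplicit false

open Finset

namespace Pool.Agent.Results.MP_9dc83d_nt.FewFactors

/-- `a b n`: the integer whose base-`b` representation is that of `1`, followed by that of `2`, ...,
followed by that of `n` (for `b = 10` this is verbatim the expression of the frozen statement). -/
def a (b n : ℕ) : ℕ :=
  (List.range' 1 n).foldl (fun acc k => acc * b ^ (Nat.digits b k).length + k) 0

/-- the number of distinct primes `p` with `p ^ 820 ≤ N` (that is `p ≤ N ^ (1 / 820)`) which divide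
`a b n`; it is at most the number of distinct prime factors of `a b n`. -/
def smallPrimes (b N n : ℕ) : ℕ := ((a b n).primeFactors.filter fun p => p ^ 820 ≤ N).card

/-- For every base `b ≥ 2`, all large `N` and all `1 ≤ k ≤ log log N`: the number of `n ≤ N` such
that at most `k` distinct primes `p ≤ N ^ (1 / 820)` divide `a b n` is at most
`C N (log log N / log N) (e log log N / k) ^ k`. -/
theorem result (b : ℕ) (hb : 2 ≤ b) : ∃ C : ℝ, 0 < C ∧ ∃ N₀ : ℕ, ∀ N : ℕ, N₀ ≤ N →
    ∀ k : ℕ, 1 ≤ k → (k : ℝ) ≤ Real.log (Real.log N) →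
    (((Icc 1 N).filter (fun n => smallPrimes b N n ≤ k)).card : ℝ) ≤
      C * N * (Real.log (Real.log N) / Real.log N) *
        (Real.exp 1 * Real.log (Real.log N) / k) ^ k :=
  Pool.Concat.few_small_factors b hb

end Pool.Agent.Results.MP_9dc83d_nt.FewFactors
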