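import Pool.Agent.Lib.MP_9dc83d_nt.Final

set_option autoImplicit false

open Finset

namespace Pool.Agent.Results.MP_9dc83d_nt.RoughTerms

/-- `a b n`: the integer whose base-`b` representation is that of `1`, followed by that of `2`, ...,
followed by that of `n` (for `b = 10` this is verbatim the expression of the frozen statement). -/
def a (b n : ℕ) : ℕ :=
  (List.range' 1 n).foldl (fun acc k => acc * b ^ (Nat.digits b k).length + k) 0

open Classical in
/-- `roughCount b N`: the number of `n` with `1 ≤ n ≤ N` for which every prime factor `p` of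
`a b n` satisfies `p ^ 820 > N`, that is `p > N ^ (1 / 820)`. -/
noncomputable def roughCount (b N : ℕ) : ℕ :=
  ((Icc 1 N).filter (fun n => ∀ p : ℕ, p.Prime → p ∣ a b n → N < p ^ 820)).card

/-- For every base `b ≥ 2` and all large `N`: at least `c N / (log N log log N)` and at most
`C N log log N / log N` of the `n ≤ N` are such that `a b n` has no prime factor `≤ N ^ (1/820)`. -/
theorem result (b : ℕ) (hb : 2 ≤ b) : ∃ c C : ℝ, 0 < c ∧ 0 < C ∧ ∃ N₀ : ℕ, ∀ N : ℕ, N₀ ≤ N →
    c * N / (Real.log N * Real.log (Real.log N)) ≤ (roughCount b N : ℝ) ∧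
    (roughCount b N : ℝ) ≤ C * N * Real.log (Real.log N) / Real.log N := by
  obtain ⟨c, C, hc, hC, N₀, h⟩ := Pool.Concat.main b hb
  exact ⟨c, C, hc, hC, N₀, fun N hN => ⟨(h N hN).1, (h N hN).2.1⟩⟩

end Pool.Agent.Results.MP_9dc83d_nt.RoughTerms
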