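import Pool.Agent.Lib.MP_9dc83d_nt.SPart

set_option autoImplicit false

open Finset

namespace Pool.Agent.Results.MP_9dc83d_nt.SParts

/-- `a b n`: the integer whose base-`b` representation is that of `1`, followed by that of `2`, ...,
followed by that of `n` (for `b = 10` this is verbatim the expression of the frozen statement). -/
def a (b n : ℕ) : ℕ :=
  (List.range' 1 n).foldl (fun acc k => acc * b ^ (Nat.digits b k).length + k) 0

/-- the `S`-part of `m`: the product over `p ∈ S` of the exact power of `p` dividing `m`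
(`m.factorization p` is the exponent of the prime `p` in `m`). -/
def sPart (S : Finset ℕ) (m : ℕ) : ℕ := ∏ p ∈ S, p ^ m.factorization p

/-- For every base `b ≥ 2` there is `C` such that for every `N`, every nonempty finite set `S` of
primes and every `0 < η ≤ 1`, at most `C |S| log (2 |S| / η) / η` of the integers `n` in `(N, 2 N]`
are such that the `S`-part of `a b n` is at least `(a b n) ^ η`. -/
theorem result (b : ℕ) (hb : 2 ≤ b) : ∃ C : ℝ, 0 < C ∧ ∀ (N : ℕ) (S : Finset ℕ), S.Nonempty →
    (∀ p ∈ S, p.Prime) → ∀ η : ℝ, 0 < η → η ≤ 1 →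
    (((Ioc N (2 * N)).filter fun n => (a b n : ℝ) ^ η ≤ (sPart S (a b n) : ℝ)).card : ℝ) ≤
      C * S.card * Real.log (2 * S.card / η) / η := by
  obtain ⟨C, hC, h⟩ := Pool.ConcatS.spart b hb
  refine ⟨C, hC, fun N S hS hSp η hη0 hη1 => ?_⟩
  have h1 := h N S hS hSp η hη0 hη1
  have e : ((Ioc N (2 * N)).filter fun n => (a b n : ℝ) ^ η ≤ (sPart S (a b n) : ℝ)) =
      ((Ioc N (2 * N)).filter fun n => (Pool.ConcatS.cc b n : ℝ) ^ η ≤
        ∏ p ∈ S, (p : ℝ) ^ (Pool.ConcatS.cc b n).factorization p) := by
    refine Finset.filter_congr fun n _ => ?_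
    unfold sPart
    push_cast
    rfl
  rw [e]
  exact h1

end Pool.Agent.Results.MP_9dc83d_nt.SParts
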