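import Pool.Agent.Lib.MP_9dc83d_nt.Sub.AllTerms

set_option autoImplicit false

open Finset

namespace Pool.Agent.Results.MP_9dc83d_nt.SmoothPart

/-- `a b n`: the integer whose base-`b` representation is that of `1`, followed by that of `2`, ...,
followed by that of `n` (for `b = 10` this is verbatim the expression of the frozen statement). -/
def a (b n : ℕ) : ℕ :=
  (List.range' 1 n).foldl (fun acc k => acc * b ^ (Nat.digits b k).length + k) 0

/-- the `S`-part of `m`: the product over `p ∈ S` of the exact power of `p` dividing `m`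
(`m.factorization p` is the exponent of the prime `p` in `m`). -/
def sPart (S : Finset ℕ) (m : ℕ) : ℕ := ∏ p ∈ S, p ^ m.factorization p

/-- For every base `b ≥ 2`, every finite set `S` of primes and every `ε > 0`, the `S`-part of `a b n`
is at most `(a b n) ^ ε` for all but finitely many `n`. -/
theorem result (b : ℕ) (hb : 2 ≤ b) (S : Finset ℕ) (hS : ∀ p ∈ S, p.Prime) (ε : ℝ) (hε : 0 < ε) :
    ∃ N : ℕ, ∀ n : ℕ, N ≤ n → (sPart S (a b n) : ℝ) ≤ (a b n : ℝ) ^ ε :=
  Filter.eventually_atTop.1 (Pool.Agent.Lib.MP_9dc83d_nt.spart_all hb S hS hε)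

end Pool.Agent.Results.MP_9dc83d_nt.SmoothPart
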